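import Pool.Agent.Helper70.BI.HH.StHC

/-! Project BI, stage 7: module PEN (the pentagon) -/

set_option autoImplicit false

open scoped Topology unitInterval
open Set

namespace Pool.Agent.Helper70.HH

namespace PENmod

theorem phi_zero : phi 0 = 0 := by unfold phi; norm_num
theorem phi_one : phi 1 = 1 := by unfold phi; norm_num

theorem phi_le_one {v : ℝ} (hv : v ≤ 1) : phi v ≤ 1 := by
  unfold phi
  split_ifs <;> linarith

theorem phi_nonneg {v : ℝ} (hv : 0 ≤ v) : 0 ≤ phi v := by
  unfold phi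
  split_ifs <;> linarith

/-- the reparametrization of `(p (q r)) s` -/
noncomputable def kk (t : ℝ) : ℝ := phi (2 * min t (1 / 2)) / 2 + max (t - 1 / 2) 0

noncomputable def g1 (ρ t : ℝ) : ℝ := (1 - ρ) * t + ρ * phi t
noncomputable def g2 (ρ t : ℝ) : ℝ := phi ((1 - ρ) * t + ρ * phi t)
noncomputable def g3 (ρ t : ℝ) : ℝ :=
  ((1 - ρ) * (2 * min t (1 / 2)) + ρ * phi (2 * min t (1 / 2))) / 2 + max (t - 1 / 2) 0
noncomputable def g4 (ρ t : ℝ) : ℝ := kk ((1 - ρ) * t + ρ * phi t)
noncomputable def g5 (ρ t : ℝ) : ℝ :=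
  kk (phi (min t (1 / 2) +
    ((1 - ρ) * max (2 * t - 1) 0 + ρ * phi (max (2 * t - 1) 0)) / 2))

theorem continuous_kk : Continuous kk := by
  have := continuous_phi
  unfold kk
  fun_prop

/-- concatenation of functions in the first variable -/
noncomputable def cc2 (a b : ℝ → ℝ → ℝ) (c : ℝ → ℝ) (ρ t : ℝ) : ℝ :=
  a (min (2 * ρ) 1) t + b (max (2 * ρ - 1) 0) t - c t

theorem cc2_le {a b : ℝ → ℝ → ℝ} {c : ℝ → ℝ} (hb : ∀ t, b 0 t = c t) {ρ : ℝ} (t : ℝ)
    (h : ρ ≤ 1 / 2) : cc2 a b c ρ t = a (2 * ρ) t := by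
  unfold cc2
  rw [min_eq_left (by linarith), max_eq_right (by linarith), hb]
  ring

theorem cc2_ge {a b : ℝ → ℝ → ℝ} {c : ℝ → ℝ} (ha : ∀ t, a 1 t = c t) {ρ : ℝ} (t : ℝ)
    (h : 1 / 2 ≤ ρ) : cc2 a b c ρ t = b (2 * ρ - 1) t := by
  unfold cc2
  rw [min_eq_right (by linarith), max_eq_left (by linarith), ha]
  ring

theorem g1_one (t : ℝ) : g1 1 t = phi t := by unfold g1; ring
theorem g2_zero (t : ℝ) : g2 0 t = phi t := by
  unfold g2
  congr 1
  ring
theorem g3_one (t : ℝ) : g3 1 t = kk t := by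
  unfold g3 kk
  ring
theorem g4_zero (t : ℝ) : g4 0 t = kk t := by
  unfold g4
  congr 1
  ring
theorem g4_one (t : ℝ) : g4 1 t = kk (phi t) := by
  unfold g4
  congr 1
  ring

theorem min_max_half (t : ℝ) : min t (1 / 2) + max (2 * t - 1) 0 / 2 = t := by
  rcases le_total t (1 / 2) with h | h
  · rw [min_eq_left h, max_eq_right (by linarith)]
    ring
  · rw [min_eq_right h, max_eq_left (by linarith)]
    ring

theorem g5_zero (t : ℝ) : g5 0 t = kk (phi t) := by
  unfold g5
  have h : min t (1 / 2) + ((1 - 0) * max (2 * t - 1) 0 + 0 * phi (max (2 * t - 1) 0)) / 2 = t := by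
    have := min_max_half t
    linarith
  rw [h]

theorem g5_one (t : ℝ) : g5 1 t = kk (phi (min t (1 / 2) + phi (max (2 * t - 1) 0) / 2)) := by
  unfold g5
  congr 2
  ring

theorem g3_zero (t : ℝ) : g3 0 t = t := by
  unfold g3
  rcases le_total t (1 / 2) with h | h
  · rw [min_eq_left h, max_eq_right (by linarith)]
    ring
  · rw [min_eq_right h, max_eq_left (by linarith)]
    ring

/-- the pentagon for the reparametrizations -/
theorem penta (t : ℝ) :
    phi (phi t) = kk (phi (min t (1 / 2) + phi (max (2 * t - 1) 0) / 2)) := by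
  have kle : ∀ u : ℝ, u ≤ 1 / 2 → kk u = phi (2 * u) / 2 := by
    intro u hu
    unfold kk
    rw [min_eq_left hu, max_eq_right (by linarith), add_zero]
  have kge : ∀ u : ℝ, 1 / 2 ≤ u → kk u = u := by
    intro u hu
    unfold kk
    rw [min_eq_right hu, max_eq_left (by linarith)]
    norm_num [phi_one]
  have p1 : ∀ u : ℝ, u ≤ 1 / 2 → phi u = u / 2 := fun u hu => if_pos hu
  have p2 : ∀ u : ℝ, 1 / 2 ≤ u → u ≤ 3 / 4 → phi u = u - 1 / 4 := by
    intro u hu hu'
    rcases eq_or_lt_of_le hu with h | h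
    · rw [p1 u h.ge, ← h]
      norm_num
    · unfold phi
      rw [if_neg (not_le.2 h), if_pos hu']
  have p3 : ∀ u : ℝ, 3 / 4 ≤ u → phi u = 2 * u - 1 := by
    intro u hu
    rcases eq_or_lt_of_le hu with h | h
    · rw [p2 u (by linarith) h.ge, ← h]
      norm_num
    · unfold phi
      rw [if_neg (by linarith), if_neg (not_le.2 h)]
  rcases le_total t (1 / 2) with h | h
  · rw [min_eq_left h, max_eq_right (by linarith), phi_zero, zero_div, add_zero, p1 t h,
      p1 (t / 2) (by linarith), kle (t / 2) (by linarith), p1 (2 * (t / 2)) (by linarith)]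
    ring
  · rw [min_eq_right h, max_eq_left (by linarith)]
    rcases le_total t (3 / 4) with h' | h'
    · rw [p2 t h h', p1 (t - 1 / 4) (by linarith), p1 (2 * t - 1) (by linarith),
        p2 (1 / 2 + (2 * t - 1) / 2 / 2) (by linarith) (by linarith),
        kle _ (by linarith), p2 _ (by linarith) (by linarith)]
      ring
    · rw [p3 t h']
      rcases le_total t (7 / 8) with h'' | h''
      · rw [p2 (2 * t - 1) (by linarith) (by linarith),
          p2 (1 / 2 + (2 * t - 1 - 1 / 4) / 2) (by linarith) (by linarith),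
          kle _ (by linarith), p3 _ (by linarith)]
        ring
      · rw [p3 (2 * t - 1) (by linarith),
          p3 (1 / 2 + (2 * (2 * t - 1) - 1) / 2) (by linarith), kge _ (by linarith)]
        ring

section

variable {X : Type} [TopologicalSpace X] {x y z w v : X} (p : Path x y) (q : Path y z)
  (r : Path z w) (s : Path w v)

/-- the parametrization `kk` -/
theorem ext_kk (u : ℝ) : ((p.trans (q.trans r)).trans s).extend u =
    (((p.trans q).trans r).trans s).extend (kk u) := by
  rcases le_total u (1 / 2) with h | h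
  · have hk : kk u = phi (2 * u) / 2 := by
      unfold kk
      rw [min_eq_left h, max_eq_right (by linarith), add_zero]
    have h1 : phi (2 * u) ≤ 1 := phi_le_one (by linarith)
    have e1 : ((p.trans (q.trans r)).trans s).extend u = (p.trans (q.trans r)).extend (2 * u) :=
      Path.extend_trans_of_le_half _ _ h
    have e2 : (((p.trans q).trans r).trans s).extend (phi (2 * u) / 2) =
        ((p.trans q).trans r).extend (2 * (phi (2 * u) / 2)) :=
      Path.extend_trans_of_le_half _ _ (by linarith)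
    rw [hk, e1, e2, ← phi_trans]
    congr 1
    ring
  · have hk : kk u = u := by
      unfold kk
      rw [min_eq_right h, max_eq_left (by linarith)]
      norm_num [phi_one]
    rw [hk, Path.extend_trans_of_half_le _ _ h, Path.extend_trans_of_half_le _ _ h]

theorem c1 (ρ t : I) : ascP (p.trans q) r s ρ t =
    (((p.trans q).trans r).trans s).extend (g1 ρ t) := ascP_apply _ _ _ _ _

theorem c2 (ρ t : I) : ascP p q (r.trans s) ρ t =
    (((p.trans q).trans r).trans s).extend (g2 ρ t) := by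
  rw [ascP_apply]
  unfold g2
  rw [phi_trans]

theorem c3 (ρ t : I) : hcP (ascP p q r) (Path.refl s) ρ t =
    (((p.trans q).trans r).trans s).extend (g3 ρ t) := by
  show ((ascP p q r ρ).trans s) t = _
  have hρ0 := ρ.2.1
  have hρ1 := ρ.2.2
  have ht0 := t.2.1
  have ht1 := t.2.2
  rw [Path.trans_apply]
  split_ifs with h
  · rw [ascP_apply]
    have e : g3 ρ t = ((1 - (ρ : ℝ)) * (2 * t) + (ρ : ℝ) * phi (2 * t)) / 2 := by
      unfold g3
      rw [min_eq_left h, max_eq_right (by linarith), add_zero]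
    have hb : (1 - (ρ : ℝ)) * (2 * t) + (ρ : ℝ) * phi (2 * t) ≤ 1 := by
      have h1 : phi (2 * (t : ℝ)) ≤ 1 := phi_le_one (by linarith)
      nlinarith
    have e2 : (((p.trans q).trans r).trans s).extend
        (((1 - (ρ : ℝ)) * (2 * t) + (ρ : ℝ) * phi (2 * t)) / 2) =
        ((p.trans q).trans r).extend
          (2 * (((1 - (ρ : ℝ)) * (2 * t) + (ρ : ℝ) * phi (2 * t)) / 2)) :=
      Path.extend_trans_of_le_half _ _ (by linarith)
    rw [e, e2]
    congr 1
    show (1 - (ρ : ℝ)) * (2 * t) + (ρ : ℝ) * phi (2 * t) = _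
    ring
  · have h' : (1 : ℝ) / 2 ≤ t := by linarith
    have e : g3 ρ t = t := by
      unfold g3
      rw [min_eq_right h', max_eq_left (by linarith)]
      norm_num [phi_one]
    rw [e, Path.extend_trans_of_half_le _ _ h']
    exact (Path.extend_apply s _).symm

theorem c4 (ρ t : I) : ascP p (q.trans r) s ρ t =
    (((p.trans q).trans r).trans s).extend (g4 ρ t) := by
  rw [ascP_apply]
  unfold g4
  rw [ext_kk]

theorem c5 (ρ t : I) : hcP (Path.refl p) (ascP q r s) ρ t =
    (((p.trans q).trans r).trans s).extend (g5 ρ t) := by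
  show (p.trans (ascP q r s ρ)) t = _
  have hρ0 := ρ.2.1
  have hρ1 := ρ.2.2
  have ht0 := t.2.1
  have ht1 := t.2.2
  unfold g5
  rw [← ext_kk, phi_trans, Path.trans_apply]
  split_ifs with h
  · rw [min_eq_left h, max_eq_right (by linarith), phi_zero]
    have e : (t : ℝ) + ((1 - (ρ : ℝ)) * 0 + (ρ : ℝ) * 0) / 2 = t := by ring
    rw [e, Path.extend_trans_of_le_half _ _ h]
    exact (Path.extend_apply p _).symm
  · have h' : (1 : ℝ) / 2 ≤ t := by linarith
    have h2 : (0 : ℝ) ≤ 2 * t - 1 := by linarith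
    rw [min_eq_right h', max_eq_left h2, ascP_apply]
    have hn : 0 ≤ (1 - (ρ : ℝ)) * (2 * t - 1) + (ρ : ℝ) * phi (2 * t - 1) := by
      have h3 : 0 ≤ phi (2 * (t : ℝ) - 1) := phi_nonneg h2
      have h4 : 0 ≤ 1 - (ρ : ℝ) := by linarith
      positivity
    have e2 : (p.trans ((q.trans r).trans s)).extend
        (1 / 2 + ((1 - (ρ : ℝ)) * (2 * t - 1) + (ρ : ℝ) * phi (2 * t - 1)) / 2) =
        ((q.trans r).trans s).extend
          (2 * (1 / 2 + ((1 - (ρ : ℝ)) * (2 * t - 1) + (ρ : ℝ) * phi (2 * t - 1)) / 2) - 1) :=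
      Path.extend_trans_of_half_le _ _ (by linarith)
    rw [e2]
    congr 1
    show (1 - (ρ : ℝ)) * (2 * t - 1) + (ρ : ℝ) * phi (2 * t - 1) = _
    ring

end

/-- concatenation of cells -/
theorem trans_cell {X : Type} [TopologicalSpace X] {x y : X} {p q r : Path x y} (γ : Path p q)
    (δ : Path q r) (Φ : ℝ → X) (a b : ℝ → ℝ → ℝ) (c : ℝ → ℝ) (hb : ∀ t, b 0 t = c t)
    (ha : ∀ t, a 1 t = c t) (h1 : ∀ ρ t : I, γ ρ t = Φ (a ρ t))
    (h2 : ∀ ρ t : I, δ ρ t = Φ (b ρ t)) (ρ t : I) :
    (γ.trans δ) ρ t = Φ (cc2 a b c ρ t) := by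
  rw [Path.trans_apply]
  split_ifs with h
  · rw [h1, cc2_le hb _ h]
  · rw [h2, cc2_ge ha _ (by linarith)]

theorem continuous_cc2 {a b : ℝ → ℝ → ℝ} {c : ℝ → ℝ} (ha : Continuous fun z : ℝ × ℝ => a z.1 z.2)
    (hb : Continuous fun z : ℝ × ℝ => b z.1 z.2) (hc : Continuous c) :
    Continuous fun z : ℝ × ℝ => cc2 a b c z.1 z.2 := by
  unfold cc2
  have h1 : Continuous fun z : ℝ × ℝ => a (min (2 * z.1) 1) z.2 :=
    ha.comp (by fun_prop : Continuous fun z : ℝ × ℝ => (min (2 * z.1) 1, z.2))
  have h2 : Continuous fun z : ℝ × ℝ => b (max (2 * z.1 - 1) 0) z.2 :=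
    hb.comp (by fun_prop : Continuous fun z : ℝ × ℝ => (max (2 * z.1 - 1) 0, z.2))
  exact (h1.add h2).sub (hc.comp continuous_snd)

theorem cont_g1 : Continuous fun z : ℝ × ℝ => g1 z.1 z.2 := by
  have := continuous_phi
  unfold g1
  fun_prop
theorem cont_g2 : Continuous fun z : ℝ × ℝ => g2 z.1 z.2 := continuous_phi.comp cont_g1
theorem cont_g3 : Continuous fun z : ℝ × ℝ => g3 z.1 z.2 := by
  have := continuous_phi
  unfold g3
  fun_prop
theorem cont_g4 : Continuous fun z : ℝ × ℝ => g4 z.1 z.2 := continuous_kk.comp cont_g1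
theorem cont_g5 : Continuous fun z : ℝ × ℝ => g5 z.1 z.2 := by
  have := continuous_phi
  have := continuous_kk
  unfold g5
  fun_prop

end PENmod

open PENmod

theorem m_PEN (hCNV : StCNV) : StPEN := by
  intro X _ x y z w v p q r s
  rw [← Path.Homotopic.Quotient.mk_refl, ← Path.Homotopic.Quotient.mk_refl]
  unfold asc
  rw [hc_mk, hc_mk, ← Path.Homotopic.Quotient.mk_trans, ← Path.Homotopic.Quotient.mk_trans,
    ← Path.Homotopic.Quotient.mk_trans]
  apply Quotient.sound
  have hg45 : Continuous fun z : ℝ × ℝ => cc2 g4 g5 (fun t => kk (phi t)) z.1 z.2 :=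
    continuous_cc2 cont_g4 cont_g5 (continuous_kk.comp continuous_phi)
  have hL : Continuous fun z : ℝ × ℝ => cc2 g1 g2 phi z.1 z.2 :=
    continuous_cc2 cont_g1 cont_g2 continuous_phi
  have hR : Continuous fun z : ℝ × ℝ =>
      cc2 g3 (cc2 g4 g5 (fun t => kk (phi t))) kk z.1 z.2 :=
    continuous_cc2 cont_g3 hg45 continuous_kk
  have hi : Continuous fun z : I × I => ((z.1 : ℝ), (z.2 : ℝ)) := by fun_prop
  have h45z : ∀ t : ℝ, cc2 g4 g5 (fun t => kk (phi t)) 0 t = kk t := by
    intro t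
    rw [cc2_le g5_zero _ (by norm_num), mul_zero, g4_zero]
  have h45o : ∀ t : ℝ, cc2 g4 g5 (fun t => kk (phi t)) 1 t = g5 1 t := by
    intro t
    rw [cc2_ge g4_one _ (by norm_num)]
    norm_num
  refine hCNV X ℝ x v _ _ _ _ ⟨(((p.trans q).trans r).trans s).extend,
    Path.continuous_extend _⟩ ⟨fun z => cc2 g1 g2 phi z.1 z.2, hL.comp hi⟩
    ⟨fun z => cc2 g3 (cc2 g4 g5 (fun t => kk (phi t))) kk z.1 z.2, hR.comp hi⟩ ?_ ?_ ?_
  · intro ρ t
    exact trans_cell _ _ (((p.trans q).trans r).trans s).extend g1 g2 phi g2_zero g1_one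
      (c1 p q r s) (c2 p q r s) ρ t
  · intro ρ t
    refine trans_cell _ _ (((p.trans q).trans r).trans s).extend g3
      (cc2 g4 g5 (fun t => kk (phi t))) kk h45z g3_one (c3 p q r s) ?_ ρ t
    intro ρ t
    exact trans_cell _ _ (((p.trans q).trans r).trans s).extend g4 g5 (fun t => kk (phi t))
      g5_zero g4_one (c4 p q r s) (c5 p q r s) ρ t
  · intro ρ t h
    show cc2 g1 g2 phi (ρ : ℝ) (t : ℝ) =
      cc2 g3 (cc2 g4 g5 (fun t => kk (phi t))) kk (ρ : ℝ) (t : ℝ)
    have ht0 := t.2.1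
    have ht1 := t.2.2
    rcases h with rfl | rfl | rfl | rfl
    · rw [Icc.coe_zero, cc2_le g2_zero _ (by norm_num), cc2_le h45z _ (by norm_num), mul_zero,
        g3_zero]
      unfold g1
      ring
    · rw [Icc.coe_one, cc2_ge g1_one _ (by norm_num), cc2_ge g3_one _ (by norm_num)]
      have e : (2 : ℝ) * 1 - 1 = 1 := by norm_num
      rw [e, h45o, g5_one, ← penta]
      unfold g2
      congr 1
      ring
    · have kz : kk 0 = 0 := by
        unfold kk
        rw [min_eq_left (by norm_num), max_eq_right (by norm_num)]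
        norm_num [phi_zero]
      rw [Icc.coe_zero]
      have a1 : ∀ ρ : ℝ, g1 ρ 0 = 0 := by
        intro ρ
        unfold g1
        rw [phi_zero]
        ring
      have a2 : ∀ ρ : ℝ, g2 ρ 0 = 0 := by
        intro ρ
        have := a1 ρ
        unfold g1 at this
        unfold g2
        rw [this, phi_zero]
      have a3 : ∀ ρ : ℝ, g3 ρ 0 = 0 := by
        intro ρ
        unfold g3
        rw [min_eq_left (by norm_num), max_eq_right (by norm_num)]
        norm_num [phi_zero]
      have a4 : ∀ ρ : ℝ, g4 ρ 0 = 0 := by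
        intro ρ
        have := a1 ρ
        unfold g1 at this
        unfold g4
        rw [this, kz]
      have a5 : ∀ ρ : ℝ, g5 ρ 0 = 0 := by
        intro ρ
        unfold g5
        rw [min_eq_left (by norm_num), max_eq_right (by norm_num)]
        norm_num [phi_zero, kz]
      unfold cc2
      simp only [a1, a2, a3, a4, a5, phi_zero, kz]
      norm_num
    · have ko : kk 1 = 1 := by
        unfold kk
        rw [min_eq_right (by norm_num), max_eq_left (by norm_num)]
        norm_num [phi_one]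
      rw [Icc.coe_one]
      have a1 : ∀ ρ : ℝ, g1 ρ 1 = 1 := by
        intro ρ
        unfold g1
        rw [phi_one]
        ring
      have a2 : ∀ ρ : ℝ, g2 ρ 1 = 1 := by
        intro ρ
        have := a1 ρ
        unfold g1 at this
        unfold g2
        rw [this, phi_one]
      have a3 : ∀ ρ : ℝ, g3 ρ 1 = 1 := by
        intro ρ
        unfold g3
        rw [min_eq_right (by norm_num), max_eq_left (by norm_num)]
        norm_num [phi_one]
      have a4 : ∀ ρ : ℝ, g4 ρ 1 = 1 := by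
        intro ρ
        have := a1 ρ
        unfold g1 at this
        unfold g4
        rw [this, ko]
      have a5 : ∀ ρ : ℝ, g5 ρ 1 = 1 := by
        intro ρ
        unfold g5
        rw [min_eq_right (by norm_num), max_eq_left (by norm_num)]
        have e : (2 : ℝ) * 1 - 1 = 1 := by norm_num
        rw [e, phi_one]
        have e2 : (1 : ℝ) / 2 + ((1 - ρ) * 1 + ρ * 1) / 2 = 1 := by ring
        rw [e2, phi_one, ko]
      unfold cc2
      simp only [a1, a2, a3, a4, a5, phi_one, ko]
      norm_num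

end Pool.Agent.Helper70.HH
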